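import Mathlib
import Pool.Agent.H.MP_b61c36_nt.Main

namespace Pool.Agent.Results.MP_b61c36_nt.Exceptional

open Filter Topology MeasureTheory

open Classical in
/-- Poissonian pair correlations of a real sequence indexed from 0. -/
def PPC (x : ℕ → ℝ) : Prop :=
  ∀ s : ℝ, 0 < s →
    Tendsto (fun N : ℕ =>
      (((Finset.range N ×ˢ Finset.range N).filter (fun p : ℕ × ℕ =>
        p.1 ≠ p.2 ∧ |x p.1 - x p.2 - round (x p.1 - x p.2)| < s / N)).card : ℝ) / N)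
      atTop (𝓝 (2 * s))

open Pool.Agent.H.MP_b61c36_nt in
theorem ppc_iff (a : ℕ → ℕ) (α : ℝ) : PPC (fun n => Int.fract ((a n : ℝ) * α)) ↔
    ∀ s : ℝ, 0 < s → Tendsto (fun N : ℕ =>
      (DD (fun n => ((a n * α : ℝ) : T)) N (s / N) : ℝ) / N) atTop (𝓝 (2 * s)) := by
  have key : ∀ u v : ℝ, |Int.fract u - Int.fract v - round (Int.fract u - Int.fract v)| =
      dist ((u : ℝ) : T) ((v : ℝ) : T) := by
    intro u v
    rw [← UnitAddCircle.norm_eq, AddCircle.coe_sub, AddCircle.coe_fract, AddCircle.coe_fract,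
      dist_eq_norm]
  unfold PPC DD
  simp only [key]

theorem result : ∃ a : ℕ → ℕ, StrictMono a ∧ 0 < a 0 ∧
    (∀ᵐ α : ℝ, ¬ PPC (fun n => Int.fract ((a n : ℝ) * α))) ∧
    ∃ α : ℝ, PPC (fun n => Int.fract ((a n : ℝ) * α)) := by
  obtain ⟨a, h1, h2, h3, h4⟩ := Pool.Agent.H.MP_b61c36_nt.main
  refine ⟨a, h1, h2, ?_, √2, (ppc_iff a _).mpr h4⟩
  filter_upwards [h3] with x hx h
  exact hx ((ppc_iff a x).mp h 1 one_pos)

end Pool.Agent.Results.MP_b61c36_nt.Exceptional
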